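import Pool.Agent.Q34.GB
import Mathlib.Tactic.IntervalCases

set_option autoImplicit false

namespace Pool.Agent.Results.MP_cec948_nt.FailsAtThirteen

open Pool.Agent.Q34

/-- `S_p = ∑_{k<p} C(-1/4,k) C(-1/2,k) / (-3)^k` -/
def S (p : ℕ) : ℚ := hs (-1/4) (-1/2) (-1/3) p

/-- `T_p = ∑_{k<p} C(-1/4,k) C(-1/2,k) / 81^k` -/
def T (p : ℕ) : ℚ := hs (-1/4) (-1/2) (1/81) p

/-- Parts (a) and (b) of Q1 for the prime `p`. -/
def Posed (p : ℕ) : Prop :=
  (p % 4 = 1 → ∃ x y : ℤ, Odd x ∧ (p : ℤ) = x ^ 2 + y ^ 2 ∧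
    Cong p 2 (S p) (2 * x - p / (2 * x)) ∧
    Cong p 2 ((-1) ^ ((p - 1) / 4) * T p) (2 * x - p / (2 * x))) ∧
  (p % 4 = 3 → Cong p 1 (S p) 0 ∧ Cong p 1 (T p) 0)

/-- The conjunction of Q1 is false: part (a) fails for `p = 13`, for both signs of `x`. -/
theorem result : ¬ ∀ p : ℕ, p.Prime → 5 ≤ p → Posed p := by
  intro h
  obtain ⟨x, y, hx, hxy, h1, h2⟩ := (h 13 (by norm_num) (by norm_num)).1 (by norm_num)
  have hb : x ^ 2 ≤ 13 := by push_cast at hxy; nlinarith [sq_nonneg y]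
  have hx1 : x ≤ 3 := by nlinarith
  have hx2 : -3 ≤ x := by nlinarith
  have hyb : y ^ 2 ≤ 13 := by push_cast at hxy; nlinarith [sq_nonneg x]
  have hy1 : y ≤ 3 := by nlinarith
  have hy2 : -3 ≤ y := by nlinarith
  have hx3 : x = 3 ∨ x = -3 := by
    push_cast at hxy
    interval_cases x <;> interval_cases y <;> revert hx <;> revert hxy <;> decide
  rcases hx3 with rfl | rfl
  · refine not_cong (p := 13) (m := 2) (by norm_num) ?_ h2
    unfold T
    rw [← (st_spec _ _ _ _).2]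
    decide +kernel
  · refine not_cong (p := 13) (m := 2) (by norm_num) ?_ h1
    unfold S
    rw [← (st_spec _ _ _ _).2]
    decide +kernel

end Pool.Agent.Results.MP_cec948_nt.FailsAtThirteen
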